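import Mathlib

set_option autoImplicit false
open MvPolynomial Topology

namespace Pool.Agent.Results.MP_aa2e78_ag.TwoNodes

theorem sing (b : Fin 4 → ℂ) (h : ∀ i, eval b (pderiv i (X 1 * X 0 + X 2 * X 3 * (1 - X 3))) = 0) :
    b = 0 ∨ b = ![0, 0, 0, 1] := by
  simp [Fin.forall_fin_succ, funext_iff] at h ⊢
  grind

theorem irr : Irreducible (X 1 * X 0 + X 2 * X 3 * (1 - X 3) : MvPolynomial (Fin 4) ℂ) := by
  refine irreducible_mul_X_add _ _ _ (X_ne_zero _) (by simp) (fun h => ?_)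
    (X_prime.irreducible.isRelPrime_iff_not_dvd.mpr fun ⟨c, h⟩ => ?_)
  · have := vars_mul _ _ h
    have h1 := vars_sub_subset (1 : MvPolynomial (Fin 4) ℂ) (q := X 3)
    have h2 := vars_mul (X 2 : MvPolynomial (Fin 4) ℂ) (X 3)
    rcases Finset.mem_union.mp this with e | e
    · simpa using h2 e
    · simpa using h1 e
  · have := congrArg (eval ![0, 0, 1, 2]) h
    simp at this
    norm_num at this

theorem contr : ContractibleSpace
    {x : Fin 4 → ℂ // eval x (X 1 * X 0 + X 2 * X 3 * (1 - X 3)) = 0} := by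
  let Y := {x : Fin 4 → ℂ // eval x (X 1 * X 0 + X 2 * X 3 * (1 - X 3)) = 0}
  have c1 : ∀ i, Continuous fun x : Y => x.1 i := fun i => (continuous_apply i).comp continuous_subtype_val
  have c2 : ∀ i, Continuous fun x : unitInterval × Y => x.2.1 i := fun i => (c1 i).comp continuous_snd
  have c3 : Continuous fun x : unitInterval × Y => ((x.1 : ℝ) : ℂ) := by fun_prop
  let r : C(Y, Y) := ⟨fun x => ⟨![0, 0, 0, x.1 3], by simp⟩, by
    exact continuous_induced_rng.2 (continuous_const.matrixVecCons (continuous_const.matrixVecCons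
      (continuous_const.matrixVecCons ((c1 3).matrixVecCons continuous_const))))⟩
  refine (contractible_iff_id_nullhomotopic _).mpr ⟨⟨0, by simp⟩, ContinuousMap.Homotopic.trans (g := r)
    (.symm ⟨⟨⟨fun z => ⟨![(z.1 : ℝ) * z.2.1 0, z.2.1 1 * (z.1 : ℝ), (z.1 : ℝ) ^ 2 * z.2.1 2, z.2.1 3], ?_⟩,
      by
      exact continuous_induced_rng.2 ((c3.mul (c2 0)).matrixVecCons (((c2 1).mul c3).matrixVecCons
        (((c3.pow 2).mul (c2 2)).matrixVecCons ((c2 3).matrixVecCons continuous_const))))⟩, fun x => ?_, fun x => ?_⟩⟩)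
    (.symm ⟨⟨⟨fun z => ⟨![0, 0, 0, (z.1 : ℝ) * z.2.1 3], by simp⟩, by
      exact continuous_induced_rng.2 (continuous_const.matrixVecCons (continuous_const.matrixVecCons
        (continuous_const.matrixVecCons ((c3.mul (c2 3)).matrixVecCons continuous_const))))⟩,
      fun x => ?_, fun x => ?_⟩⟩)⟩
  · have := z.2.2
    simp at this ⊢
    linear_combination ((z.1 : ℝ) : ℂ) ^ 2 * this
  all_goals refine Subtype.ext (funext fun i => ?_); fin_cases i <;> simp [r] <;> rfl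

theorem push {A B : Type} [CommRing A] [CommRing B] [Algebra ℂ A] [Algebra ℂ B] (ψ : A →ₐ[ℂ] B) (χ : B →ₐ[ℂ] ℂ)
    {q : A} (h : q ∈ RingHom.ker (χ.comp ψ) ^ 2) : ψ q ∈ RingHom.ker χ ^ 2 := by
  rw [pow_two] at h ⊢
  exact Submodule.mul_induction_on h (fun a ha b hb => by rw [map_mul]; exact Ideal.mul_mem_mul ha hb)
    fun a b ha hb => by rw [map_add]; exact add_mem ha hb

theorem sq (χ : MvPolynomial (Fin 4) ℂ →ₐ[ℂ] ℂ) :
    X 1 * X 0 + X 2 * X 3 * (1 - X 3) ∈ RingHom.ker χ ^ 2 ↔ χ = aeval 0 ∨ χ = aeval ![0, 0, 0, 1] := by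
  have e0 : χ = aeval fun i => χ (X i) := algHom_ext fun i => (aeval_X (fun i => χ (X i)) i).symm
  refine ⟨fun h => (sing (fun i => χ (X i)) fun i => ?_).imp (fun e => by rw [e0, e]) fun e => by rw [e0, e],
    fun h => ?_⟩
  · change aeval (fun i => χ (X i)) _ = 0
    rw [← e0]
    rw [pow_two] at h
    refine Submodule.mul_induction_on h (fun a ha b hb => ?_) fun a b ha hb => by rw [map_add, map_add, ha, hb, add_zero]
    simp [RingHom.mem_ker.mp ha, RingHom.mem_ker.mp hb]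
  · rw [pow_two]
    rcases h with rfl | rfl
    · exact add_mem (Ideal.mul_mem_mul (by simp) (by simp))
        (Ideal.mul_mem_right _ _ (Ideal.mul_mem_mul (by simp) (by simp)))
    · exact add_mem (Ideal.mul_mem_mul (by simp) (by simp))
        (Ideal.mul_mem_mul (Ideal.mul_mem_right _ _ (by simp)) (by simp))

theorem result : ∃ (n : ℕ) (p : MvPolynomial (Fin n) ℂ), 2 ≤ n ∧ Irreducible p ∧
    ContractibleSpace {x : Fin n → ℂ // eval x p = 0} ∧
    (∃ a : Fin n → ℂ, eval a p = 0 ∧ (∀ i, eval a (pderiv i p) = 0) ∧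
      ∀ᶠ b in 𝓝 a, eval b p = 0 → (∀ i, eval b (pderiv i p) = 0) → b = a) ∧
    {a : Fin n → ℂ | ∀ i, eval a (pderiv i p) = 0}.Finite ∧
    ∀ φ : MvPolynomial (Fin n) ℂ ≃ₐ[ℂ] MvPolynomial (Fin n) ℂ, ¬ ∃ (w : Fin n → ℕ) (d : ℤ), (∀ i, 0 < w i) ∧
      ∀ t : ℂ, t ≠ 0 → ∀ x : Fin n → ℂ, eval (fun i => t ^ w i * x i) (φ p) = t ^ d * eval x (φ p) := by
  refine ⟨4, X 1 * X 0 + X 2 * X 3 * (1 - X 3), by simp, irr, contr, ⟨0, by simp, by simp, ?_⟩,
    (Set.toFinite {0, ![0, 0, 0, 1]}).subset sing, ?_⟩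
  · refine (eventually_ne_nhds (show (0 : Fin 4 → ℂ) ≠ ![0, 0, 0, 1] from fun h => by simpa using congrFun h 3)).mono
      fun b h _ h' => (sing b h').resolve_right h
  rintro φ ⟨w, d, h1, h2⟩
  have h3 := sq
  generalize (X 1 * X 0 + X 2 * X 3 * (1 - X 3) : MvPolynomial (Fin 4) ℂ) = p at h2 h3
  have h4 : ∀ χ : MvPolynomial (Fin 4) ℂ →ₐ[ℂ] ℂ, φ p ∈ RingHom.ker χ ^ 2 ↔
      χ = (aeval 0).comp φ.symm.toAlgHom ∨ χ = (aeval ![0, 0, 0, 1]).comp φ.symm.toAlgHom := fun χ => by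
    have e0 : χ = (χ.comp φ.toAlgHom).comp φ.symm.toAlgHom := AlgHom.ext fun x => by simp
    refine ⟨fun h => ((h3 (χ.comp φ.toAlgHom)).mp ?_).imp (fun e => by rw [e0, e]) fun e => by rw [e0, e],
      fun h => push φ.toAlgHom χ ((h3 _).mpr (h.imp (fun e => ?_) fun e => ?_))⟩
    · rw [← φ.symm_apply_apply p]
      exact push φ.symm.toAlgHom _ (e0 ▸ h)
    all_goals exact AlgHom.ext fun x => by simp [e]
  obtain ⟨χ, h5, i, h6⟩ : ∃ χ : MvPolynomial (Fin 4) ℂ →ₐ[ℂ] ℂ, φ p ∈ RingHom.ker χ ^ 2 ∧ ∃ i, χ (X i) ≠ 0 := by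
    by_contra! h
    have h5 : (aeval 0).comp φ.symm.toAlgHom = (aeval ![0, 0, 0, (1 : ℂ)]).comp φ.symm.toAlgHom :=
      algHom_ext fun i => (h _ ((h4 _).mpr (.inl rfl)) i).trans (h _ ((h4 _).mpr (.inr rfl)) i).symm
    simpa using DFunLike.congr_fun h5 (φ (X 3))
  have h7 : ∀ t : ℕ, t ≠ 0 → φ p ∈ RingHom.ker (χ.comp (aeval fun i => C (t ^ w i : ℂ) * X i)) ^ 2 := fun t ht => by
    have h0 : (t : ℂ) ≠ 0 := by simpa
    have h8 : aeval (fun i => C ((t : ℂ)⁻¹ ^ w i) * X i) (φ p) = C ((t : ℂ)⁻¹ ^ d) * φ p :=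
      MvPolynomial.funext fun x => by
      rw [map_mul, eval_C, ← h2 _ (inv_ne_zero h0) x, aeval_eq_bind₁, eval, eval₂Hom_bind₁]
      congr 2
      ext j
      simp
    have h9 := push (aeval fun i => C ((t : ℂ)⁻¹ ^ w i) * X i) (χ.comp (aeval fun i => C (t ^ w i : ℂ) * X i))
      (q := φ p) (by
        rwa [show (χ.comp (aeval fun i => C (t ^ w i : ℂ) * X i)).comp (aeval fun i => C ((t : ℂ)⁻¹ ^ w i) * X i) = χ from
          algHom_ext fun i => by simp [← mul_assoc, ← mul_pow, h0]])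
    rw [h8] at h9
    exact (Ideal.unit_mul_mem_iff_mem _ ((zpow_ne_zero d (inv_ne_zero h0)).isUnit.map C)).mp h9
  have h8 : ∀ s t : ℕ, χ.comp (aeval fun i => C (s ^ w i : ℂ) * X i) = χ.comp (aeval fun i => C (t ^ w i : ℂ) * X i) →
      s = t := fun s t h => by
    have := DFunLike.congr_fun h (X i)
    simp [h6] at this
    exact Nat.pow_left_injective (h1 i).ne' (by exact_mod_cast this)
  have a1 := (h4 _).mp (h7 1 (by simp))
  have a2 := (h4 _).mp (h7 2 (by simp))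
  have a3 := (h4 _).mp (h7 3 (by simp))
  have b1 := h8 1 2
  have b2 := h8 1 3
  have b3 := h8 2 3
  grind

end Pool.Agent.Results.MP_aa2e78_ag.TwoNodes
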